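import Pool.Agent.Lib.MP_396e7f_gt.Parallel

open scoped RealInnerProductSpace
open Pool.Agent.Lib.MP_396e7f_gt

/-- For every `r > 0` the parallel transport fields of length `r` are vector fields without
boundary of finite area, every vector field of length `r` without boundary has at least that
area, and equality forces it to be a parallel transport field. -/
theorem Pool.Agent.Results.MP_396e7f_gt.Minimizers.result :
    ∀ (r : ℝ) (a b : E3), 0 < r → OrthoPair a b →
      (IsVectorField r (punctured a) (parField r a b) ∧
        IsSurface (graphClosure (punctured a) (parField r a b)) ∧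
        area (graphClosure (punctured a) (parField r a b)) < ⊤) ∧
      ∀ (U : Set E3) (V : E3 → E3), IsVectorField r U V → IsSurface (graphClosure U V) →
        area (graphClosure (punctured a) (parField r a b)) ≤ area (graphClosure U V) ∧
          (area (graphClosure U V) = area (graphClosure (punctured a) (parField r a b)) →
            ∃ a' b' : E3, OrthoPair a' b' ∧ U ⊆ punctured a' ∧
              ∀ p ∈ U, V p = parField r a' b' p) := by
  intro r a b hr ⟨ha, hb, hab⟩
  have hf : Fr a b := ⟨inner_self_of_norm ha, hab, inner_self_of_norm hb⟩
  have h0 : graphClosure (punctured a) (parField r a b) = plane r a (-b) := graph_parallel hf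
  have h1 : IsVectorField r (punctured a) (parField r a b) := isVectorField_parallel hr hf
  have h2 : IsSurface (graphClosure (punctured a) (parField r a b)) := by
    rw [h0]; exact isSurface_plane hr hf.neg
  refine ⟨⟨h1, h2, ?_⟩, fun U V h hs => ?_⟩
  · rw [h0]; exact (main hr h1 h2 hf).1
  · rw [h0]
    obtain ⟨-, h3, h4⟩ := main hr h hs hf
    refine ⟨h3, fun e => ?_⟩
    obtain ⟨a', b', h5, h6, h7⟩ := h4 e
    refine ⟨a', b', ⟨norm_of_inner_self h5.1, norm_of_inner_self h5.2.2, h5.2.1⟩,
      fun p hp => ⟨?_, fun e => h6 (e ▸ hp)⟩, h7⟩
    simpa using (h.2.2.2 p hp).1
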