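import Pool.Agent.Lib.MP_396e7f_gt.StFin

open MeasureTheory
open Pool.Agent.Lib.MP_396e7f_gt

/-- Quadratic stability: the area of a vector field of length `r` without boundary exceeds the
area of a parallel transport field by at least a constant times the square of a weighted `L²`
distance to that field. -/
theorem Pool.Agent.Results.MP_396e7f_gt.Stability.result :
    ∀ r : ℝ, 0 < r → ∃ c : ℝ, 0 < c ∧ ∀ (U : Set E3) (V : E3 → E3), IsVectorField r U V →
      IsSurface (graphClosure U V) → ∃ a b : E3, OrthoPair a b ∧
        area (graphClosure (punctured a) (parField r a b)) < ⊤ ∧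
        area (graphClosure (punctured a) (parField r a b)) + ENNReal.ofReal c *
          ∫⁻ p : Metric.sphere (0 : E3) 1 in {p | p.1 ∈ U},
            ENNReal.ofReal (‖a + p.1‖ * ‖V p.1 - parField r a b p.1‖ ^ 2)
              ∂(volume : Measure E3).toSphere ≤ area (graphClosure U V) := by
  intro r hr
  obtain ⟨c, hc, h⟩ := St.stability hr
  refine ⟨c, hc, fun U V hV hs => ?_⟩
  obtain ⟨a, b, hab, hle⟩ := h U V hV hs
  have h0 : graphClosure (punctured a) (parField r a b) = plane r a (-b) := graph_parallel hab
  rw [← h0] at hle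
  exact ⟨a, b, ⟨norm_of_inner_self hab.1, norm_of_inner_self hab.2.2, hab.2.1⟩,
    h0 ▸ (main hr hV hs hab).1, hle⟩
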